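import Pool.Agent.R499.HT.Stm

set_option autoImplicit false

namespace Pool.Agent.R499.HT

lemma KW_card (R : Finset Z4) : (KW R).card = 4 ^ R.card := by
  rw [KW, Finset.card_map, card_LR]

lemma mul_up (f : Lp) (x : Z4) : (⟨f, 0⟩ : W) * up x = ⟨f, x⟩ := by
  ext z
  · simp [up]
  · simp [up]

lemma sum_KW (R : Finset Z4) (F : W → ℝ) : ∑ v ∈ KW R, F v = ∑ f ∈ LR R, F ⟨f, 0⟩ :=
  Finset.sum_map _ _ _

lemma avg_KW (d : W → ℝ) (R : Finset Z4) (x : Z4) :
    (∑ v ∈ KW R, d (v * up x)) / (KW R).card = AV d R x := by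
  rw [KW_card, AV, sum_KW]
  simp only [mul_up]
  push_cast
  rfl

lemma TT_mono {Φ Ψ : Finset Z4 → Z4 → ℝ} (h : ∀ R x, Φ R x ≤ Ψ R x) (R : Finset Z4) (x : Z4) :
    TT Φ R x ≤ TT Ψ R x := by
  unfold TT
  apply div_le_div_of_nonneg_right _ (by norm_num)
  exact Finset.sum_le_sum fun s _ => Finset.sum_le_sum fun s' _ => h _ _

lemma TT_affine (Φ : Finset Z4 → Z4 → ℝ) (a b : ℝ) (R : Finset Z4) (x : Z4) :
    TT (fun R x => a * Φ R x - b) R x = a * TT Φ R x - b := by
  unfold TT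
  simp only [Finset.sum_sub_distrib, ← Finset.mul_sum, Finset.sum_const, Finset.card_univ]
  simp
  ring

lemma TT_iter (Φ Ψ : Finset Z4 → Z4 → ℝ) (a b : ℝ) (h : ∀ R x, a * Φ R x - b ≤ Ψ R x) (n : ℕ) :
    ∀ R x, a * (TT^[n] Φ) R x - b ≤ (TT^[n] Ψ) R x := by
  induction n with
  | zero => simpa using h
  | succ n ih =>
    intro R x
    rw [Function.iterate_succ_apply', Function.iterate_succ_apply']
    rw [← TT_affine]
    exact TT_mono ih R x

lemma mm_empty : mm ∅ = 1 := by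
  have h : LR ∅ = {0} := by
    ext f
    rw [mem_LR]
    simp
  rw [mm, h]
  simp
  rfl

lemma U_zero : U 0 = 1 := rfl

instance : Countable W := by
  have : Function.Injective (fun w : W => (w.f, w.x)) := by
    intro a b h
    simp only [Prod.mk.injEq] at h
    exact W.ext h.1 h.2
  exact this.countable

instance : Infinite W := by
  have : Function.Injective up := by
    intro a b h
    exact congrArg W.x h
  exact Infinite.of_injective _ this

theorem not_heat (hUP : S_UP) (hHLOW : S_HLOW) (hPERF : S_PERF) (hREC : S_REC) (hNU : S_NU)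
    (hRNG : S_RNG) : ¬ Heat W := by
  rintro ⟨d, hd, hh⟩
  set C0 := pair d nu with hC0
  have hl : 0 < Real.log 2 := Real.log_pos (by norm_num)
  have hpos : 0 < |C0| + 1 := by positivity
  set t : ℝ := 3 / 4 * Real.log 2 / (|C0| + 1) with ht
  have htpos : 0 < t := by positivity
  obtain ⟨C, hC⟩ := hHLOW W d hh t htpos
  have h1 : ∀ R x, (Real.log 2 / t) * ((R.card : ℝ)) - C / t ≤ AV d R x := by
    intro R x
    obtain ⟨ε, hε⟩ := hPERF R
    have := hC (KW R) ε hε (up x)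
    rw [avg_KW, KW_card] at this
    refine le_trans (le_of_eq ?_) this
    push_cast
    rw [Real.log_pow, show (4 : ℝ) = 2 ^ 2 by norm_num, Real.log_pow]
    push_cast
    field_simp
  have h2 := TT_iter (fun R _ => (R.card : ℝ)) (AV d) (Real.log 2 / t) (C / t) h1
  have h3 : ∀ k : ℕ, 2 ^ k * C0 ≥ (Real.log 2 / t) * (3 / 4 * 2 ^ k) - C / t := by
    intro k
    have h4 := hUP W d hd nu hNU.1 hNU.2 k
    have h5 := hREC d (2 ^ k) ∅ 0
    rw [mm_empty, U_zero, one_mul, one_mul] at h5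
    have h6 := h2 (2 ^ k) ∅ 0
    have h7 := hRNG (2 ^ k)
    have h8 : 0 ≤ Real.log 2 / t := by positivity
    have h9 := mul_le_mul_of_nonneg_left h7 h8
    push_cast at h9
    rw [h5] at h4
    linarith
  -- log 2 / t * 3/4 = |C0| + 1
  have h10 : Real.log 2 / t * (3 / 4) = |C0| + 1 := by
    rw [ht]
    field_simp
  have h11 : ∀ k : ℕ, (2 : ℝ) ^ k ≤ C / t := by
    intro k
    have h12 := h3 k
    have h13 : Real.log 2 / t * (3 / 4 * 2 ^ k) = (|C0| + 1) * 2 ^ k := by
      rw [← h10]; ring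
    rw [h13] at h12
    have h14 : C0 ≤ |C0| := le_abs_self _
    have h15 : (0 : ℝ) < 2 ^ k := by positivity
    nlinarith
  obtain ⟨k, hk⟩ := pow_unbounded_of_one_lt (C / t) (by norm_num : (1 : ℝ) < 2)
  exact absurd (h11 k) (not_le.2 hk)

theorem main (hUP : S_UP) (hHLOW : S_HLOW) (hPERF : S_PERF) (hREC : S_REC) (hNU : S_NU)
    (hRNG : S_RNG) (hFOL : S_FOL) (hFH : S_FH) : S_MAIN :=
  ⟨W, inferInstance, inferInstance, inferInstance, hFOL, hFH W hFOL,
    not_heat hUP hHLOW hPERF hREC hNU hRNG⟩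

end Pool.Agent.R499.HT
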