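import Mathlib

/-!
Definitions for the project HT (MP_94b6b1_an): a countable amenable group (hence a group with the
Haagerup property) which does not have the heat property.
-/

set_option autoImplicit false

namespace Pool.Agent.R499.HT

open scoped ComplexConjugate

/-! ### the reduced group C*-algebra, Fourier series, the heat property -/

/-- the Hilbert space `ℓ²(G)` -/
noncomputable abbrev L2 (G : Type) := lp (fun _ : G => ℂ) 2

/-- the standard Hilbert basis of `ℓ²(G)` -/
noncomputable def bas (G : Type) : HilbertBasis G ℂ (L2 G) :=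
  HilbertBasis.ofRepr (LinearIsometryEquiv.refl ℂ _)

lemma bas_inner {G : Type} (h : G) (f : L2 G) : inner ℂ (bas G h) f = f h := by
  classical
  rw [← HilbertBasis.repr_apply_apply]
  rfl

section trans
variable {G : Type} [Group G]

lemma ltv_orthonormal (g : G) : Orthonormal ℂ (fun y : G => bas G (g * y)) :=
  (bas G).orthonormal.comp _ (mul_right_injective g)

lemma ltv_dense (g : G) :
    ⊤ ≤ (Submodule.span ℂ (Set.range (fun y : G => bas G (g * y)))).topologicalClosure := by
  have : Set.range (fun y : G => bas G (g * y)) = Set.range (bas G) := by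
    ext v
    constructor
    · rintro ⟨y, rfl⟩; exact ⟨_, rfl⟩
    · rintro ⟨y, rfl⟩; exact ⟨g⁻¹ * y, by simp⟩
  rw [this, (bas G).dense_span]

/-- left translation on `ℓ²(G)`, as a unitary: `(lt g f) x = f (g⁻¹ x)` (see `lt_apply`) -/
noncomputable def lt (g : G) : L2 G ≃ₗᵢ[ℂ] L2 G :=
  (HilbertBasis.mk (ltv_orthonormal g) (ltv_dense g)).repr.symm

lemma lt_bas (g y : G) : lt g (bas G y) = bas G (g * y) := by
  classical
  have h1 : bas G y = lp.single 2 y (1 : ℂ) := by
    have := (bas G).repr_symm_single y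
    rw [← this]; rfl
  rw [h1, lt, HilbertBasis.repr_symm_single, HilbertBasis.coe_mk]

lemma lt_apply (g : G) (f : L2 G) (x : G) : (lt g f) x = f (g⁻¹ * x) := by
  rw [← bas_inner, ← bas_inner]
  have : bas G x = lt g (bas G (g⁻¹ * x)) := by rw [lt_bas]; simp
  rw [this, LinearIsometryEquiv.inner_map_map]

/-- the left regular representation `λ(g)`, a bounded operator on `ℓ²(G)`:
`(lam g f) x = f (g⁻¹ x)` (see `lam_apply`) -/
noncomputable def lam (g : G) : L2 G →L[ℂ] L2 G := ((lt g : L2 G ≃ₗᵢ[ℂ] L2 G) : L2 G →L[ℂ] L2 G)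

lemma lam_apply (g : G) (f : L2 G) (x : G) : (lam g f) x = f (g⁻¹ * x) := lt_apply g f x

lemma lam_bas (g y : G) : lam g (bas G y) = bas G (g * y) := lt_bas g y

variable (G) in
/-- the reduced group C*-algebra `C_r^*(G)`: the norm closure of the span of the `λ(g)` -/
noncomputable def Cr : Submodule ℂ (L2 G →L[ℂ] L2 G) :=
  (Submodule.span ℂ (Set.range (lam : G → (L2 G →L[ℂ] L2 G)))).topologicalClosure

lemma lam_mem (g : G) : lam g ∈ Cr G :=
  Submodule.le_topologicalClosure _ (Submodule.subset_span ⟨g, rfl⟩)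

/-- the Fourier coefficient `x̂(g) = ⟨x δ_e, δ_g⟩ = (x δ_e)(g)` -/
noncomputable def coef (x : L2 G →L[ℂ] L2 G) (g : G) : ℂ := (x (bas G 1)) g

/-- the Fourier series of `x` converges in operator norm as an unordered sum -/
def InCF (x : L2 G →L[ℂ] L2 G) : Prop := Summable fun g : G => coef x g • lam g

/-- `ND_0^+(G)`: the nonnegative functions with `d(e) = 0` which are negative definite -/
structure ND (d : G → ℝ) : Prop where
  nonneg : ∀ g, 0 ≤ d g
  one : d 1 = 0
  symm : ∀ g, d g⁻¹ = d g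
  neg : ∀ (n : ℕ) (g : Fin n → G) (b : Fin n → ℂ), ∑ i, b i = 0 →
    (∑ i, ∑ j, conj (b i) * b j * (d ((g i)⁻¹ * g j) : ℂ)).re ≤ 0

variable (G) in
/-- the Haagerup property: a proper function in `ND_0^+(G)` -/
def Haagerup : Prop := ∃ d : G → ℝ, ND d ∧ ∀ s : ℝ, {g : G | d g ≤ s}.Finite

/-- `G` has the heat property with respect to `d`: for every `t > 0` the bounded linear map
`M = M_t^d` of `C_r^*(G)` with `M (λ(g)) = exp (- t d(g)) λ(g)` maps `C_r^*(G)` into `CF(G)` -/
def HeatFor (d : G → ℝ) : Prop := ∀ t : ℝ, 0 < t → ∃ M : Cr G →L[ℂ] Cr G,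
  (∀ g : G, M ⟨lam g, lam_mem g⟩ = ((Real.exp (-(t * d g)) : ℝ) : ℂ) • ⟨lam g, lam_mem g⟩) ∧
  ∀ x : Cr G, InCF (M x : L2 G →L[ℂ] L2 G)

variable (G) in
/-- the heat property -/
def Heat : Prop := ∃ d : G → ℝ, ND d ∧ HeatFor d

open Classical in
variable (G) in
/-- amenability (Følner's condition, right translations) -/
def Folner : Prop := ∀ (K : Finset G) (ε : ℝ), 0 < ε → ∃ F : Finset G, F.Nonempty ∧
  ∀ g ∈ K, ((F.filter fun h => h * g ∉ F).card : ℝ) ≤ ε * (F.card : ℝ)

/-- `K` is (the underlying finite set of) a finite subgroup and `ε` a perfect function on it with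
values `±1` -/
structure PerfectOn (K : Finset G) (ε : G → ℝ) : Prop where
  one : (1 : G) ∈ K
  mul : ∀ a ∈ K, ∀ b ∈ K, a * b ∈ K
  inv : ∀ a ∈ K, a⁻¹ ∈ K
  sgn : ∀ a ∈ K, ε a = 1 ∨ ε a = -1
  cor : ∀ u ∈ K, u ≠ 1 → ∑ v ∈ K, ε v * ε (v * u) = 0

/-- the pairing `⟨μ, d⟩ = ∑ g, μ(g) d(g)` of the real group ring with functions -/
noncomputable def pair (d : G → ℝ) : MonoidAlgebra ℝ G →ₗ[ℝ] ℝ :=
  Finsupp.linearCombination ℝ d ∘ₗ (MonoidAlgebra.coeffLinearEquiv ℝ).toLinearMap

omit [Group G] in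
lemma pair_single (d : G → ℝ) (g : G) (r : ℝ) : pair d (MonoidAlgebra.single g r) = r * d g := by
  simp [pair]

end trans

/-! ### the group `(ℤ/4) ≀ ℤ⁴` -/

abbrev Z4 := Fin 4 → ℤ

abbrev Lp := Z4 →₀ ZMod 4

/-- translation of lamp configurations: `(sh x f) b = f (-x + b)` -/
noncomputable def sh (x : Z4) (f : Lp) : Lp := f.equivMapDomain (Equiv.addLeft x)

@[simp] lemma sh_apply (x : Z4) (f : Lp) (b : Z4) : sh x f b = f (-x + b) := by
  simp [sh]

/-- the restricted wreath product `(ℤ/4) ≀ ℤ⁴`: pairs (finitely supported lamp configuration,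
position), with `(f, x) (g, y) = (f + x·g, x + y)` -/
@[ext] structure W where
  f : Lp
  x : Z4

namespace W

noncomputable instance : Mul W := ⟨fun a b => ⟨a.f + sh a.x b.f, a.x + b.x⟩⟩
instance : One W := ⟨⟨0, 0⟩⟩
noncomputable instance : Inv W := ⟨fun a => ⟨-(sh (-a.x) a.f), -a.x⟩⟩

@[simp] lemma mul_f (a b : W) : (a * b).f = a.f + sh a.x b.f := rfl
@[simp] lemma mul_x (a b : W) : (a * b).x = a.x + b.x := rfl
@[simp] lemma one_f : (1 : W).f = 0 := rfl
@[simp] lemma one_x : (1 : W).x = 0 := rfl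
@[simp] lemma inv_f (a : W) : (a⁻¹).f = -(sh (-a.x) a.f) := rfl
@[simp] lemma inv_x (a : W) : (a⁻¹).x = -a.x := rfl

noncomputable instance : Group W := Group.ofLeftAxioms
  (by
    intro a b c
    ext z
    · simp [add_assoc]
    · simp [add_assoc])
  (by
    intro a
    ext z
    · simp
    · simp)
  (by
    intro a
    ext z
    · simp
    · simp)

end W

/-- the translation by `x` as an element of the wreath product -/
def up (x : Z4) : W := ⟨0, x⟩

/-- lamp configurations supported in `R` -/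
noncomputable def LR (R : Finset Z4) : Finset Lp := R.finsupp (fun _ => Finset.univ)

lemma mem_LR (R : Finset Z4) (f : Lp) : f ∈ LR R ↔ f.support ⊆ R := by
  simp [LR, Finset.mem_finsupp_iff]

lemma card_LR (R : Finset Z4) : (LR R).card = 4 ^ R.card := by
  simp [LR, Finset.card_finsupp]

/-- the lamp subgroup of `R` -/
noncomputable def KW (R : Finset Z4) : Finset W := (LR R).map ⟨fun f => ⟨f, 0⟩, by
  intro f g h
  exact congrArg W.f h⟩

/-- the steps `(±1, ±1, ±1, ±1)` -/
def st (s : Fin 4 → Bool) : Z4 := fun i => if s i then 1 else -1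

/-- the transition operator of the process (visited set, position) -/
noncomputable def TT (Φ : Finset Z4 → Z4 → ℝ) : Finset Z4 → Z4 → ℝ := fun R x =>
  (∑ s : Fin 4 → Bool, ∑ s' : Fin 4 → Bool, Φ (insert (x + st s) R) (x + st s + st s')) / 256

/-- the average of `d` over the coset `V_R x` -/
noncomputable def AV (d : W → ℝ) : Finset Z4 → Z4 → ℝ := fun R x =>
  (∑ f ∈ LR R, d ⟨f, x⟩) / 4 ^ R.card

/-- the translation `x` in the group ring -/
noncomputable def U (x : Z4) : MonoidAlgebra ℝ W := MonoidAlgebra.single (up x) 1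

/-- the uniform measure on the lamp subgroup of `R` -/
noncomputable def mm (R : Finset Z4) : MonoidAlgebra ℝ W :=
  ((4 : ℝ) ^ R.card)⁻¹ • ∑ f ∈ LR R, MonoidAlgebra.single (⟨f, 0⟩ : W) (1 : ℝ)

/-- the uniform measure on the steps -/
noncomputable def sg : MonoidAlgebra ℝ W := (16 : ℝ)⁻¹ • ∑ s : Fin 4 → Bool, U (st s)

/-- the step distribution of the random walk: walk, switch, walk -/
noncomputable def nu : MonoidAlgebra ℝ W := sg * mm {0} * sg

end Pool.Agent.R499.HT
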