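import Pool.Agent.R499.HT.Stm

set_option autoImplicit false

namespace Pool.Agent.R499.HT.FH

open scoped ComplexConjugate
open Pool.Agent.R499.HT

variable {G : Type} [Group G]

open Classical in
/-- proportion of bad points -/
noncomputable def term (F : Finset G) (g : G) : ℝ :=
  ((F.filter fun h => h * g ∉ F).card : ℝ) / (F.card : ℝ)

lemma term_nonneg (F : Finset G) (g : G) : 0 ≤ term F g := by
  unfold term; positivity

lemma term_one (F : Finset G) : term F (1 : G) = 0 := by
  classical
  unfold term
  have : (F.filter fun h => h * 1 ∉ F) = ∅ := by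
    ext h; simp
  rw [this]; simp

open Classical in
/-- number of good points -/
noncomputable def good (F : Finset G) (g : G) : ℕ := (F.filter fun h => h * g ∈ F).card

lemma term_eq (F : Finset G) (hF : F.Nonempty) (g : G) :
    term F g = 1 - (good F g : ℝ) / F.card := by
  classical
  have hc : (0 : ℝ) < F.card := by exact_mod_cast hF.card_pos
  have h1 := Finset.card_filter_add_card_filter_not (s := F) (fun h => h * g ∈ F)
  have h2 : (good F g : ℝ) + ((F.filter fun h => h * g ∉ F).card : ℝ) = F.card := by
    unfold good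
    exact_mod_cast h1
  unfold term
  field_simp
  linarith

lemma good_inv (F : Finset G) (g : G) : good F g⁻¹ = good F g := by
  classical
  unfold good
  refine Finset.card_bij' (fun h _ => h * g⁻¹) (fun h _ => h * g) ?_ ?_ ?_ ?_
  · intro h hh
    simp only [Finset.mem_filter] at hh ⊢
    exact ⟨hh.2, by simpa using hh.1⟩
  · intro h hh
    simp only [Finset.mem_filter] at hh ⊢
    exact ⟨hh.2, by simpa using hh.1⟩
  · intro h _; simp
  · intro h _; simp

lemma good_eq (F : Finset G) (n : ℕ) (g : Fin n → G) (T : Finset G)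
    (hT : ∀ i, ∀ h ∈ F, h * (g i)⁻¹ ∈ T) (i j : Fin n) :
    (good F ((g i)⁻¹ * g j) : ℂ) =
      ∑ k ∈ T, (open Classical in (if k * g i ∈ F then (1 : ℂ) else 0)) *
        (open Classical in (if k * g j ∈ F then (1 : ℂ) else 0)) := by
  classical
  have : ∀ k ∈ T, (if k * g i ∈ F then (1 : ℂ) else 0) * (if k * g j ∈ F then (1 : ℂ) else 0)
      = if (k * g i ∈ F ∧ k * g j ∈ F) then 1 else 0 := by
    intro k _
    by_cases h1 : k * g i ∈ F <;> by_cases h2 : k * g j ∈ F <;> simp [h1, h2]
  rw [Finset.sum_congr rfl this, Finset.sum_boole]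
  unfold good
  congr 1
  refine Finset.card_bij' (fun h _ => h * (g i)⁻¹) (fun k _ => k * g i) ?_ ?_ ?_ ?_
  · intro h hh
    simp only [Finset.mem_filter] at hh ⊢
    refine ⟨hT i h hh.1, by simpa using hh.1, ?_⟩
    rw [mul_assoc]; exact hh.2
  · intro k hk
    simp only [Finset.mem_filter] at hk ⊢
    refine ⟨hk.2.1, ?_⟩
    have : k * g i * ((g i)⁻¹ * g j) = k * g j := by group
    rw [this]; exact hk.2.2
  · intro h _; simp
  · intro h _; simp

lemma neg_term (F : Finset G) (hF : F.Nonempty) (n : ℕ) (g : Fin n → G) (b : Fin n → ℂ)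
    (hb : ∑ i, b i = 0) :
    (∑ i, ∑ j, conj (b i) * b j * ((term F ((g i)⁻¹ * g j) : ℝ) : ℂ)).re ≤ 0 := by
  classical
  set T : Finset G := Finset.univ.biUnion (fun i : Fin n => F.image (fun h => h * (g i)⁻¹))
    with hTdef
  have hT : ∀ i, ∀ h ∈ F, h * (g i)⁻¹ ∈ T := by
    intro i h hh
    rw [hTdef, Finset.mem_biUnion]
    exact ⟨i, Finset.mem_univ _, Finset.mem_image_of_mem _ hh⟩
  have hc : (0 : ℝ) < F.card := by exact_mod_cast hF.card_pos
  have hcC : (F.card : ℂ) ≠ 0 := by
    have := hc.ne'
    exact_mod_cast this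
  have key : (∑ i, ∑ j, conj (b i) * b j * ((term F ((g i)⁻¹ * g j) : ℝ) : ℂ)) =
      - ∑ k ∈ T, (((Complex.normSq (∑ j, (if k * g j ∈ F then b j else 0)) / F.card : ℝ)) : ℂ) := by
    have h1 : ∀ i j, conj (b i) * b j * ((term F ((g i)⁻¹ * g j) : ℝ) : ℂ) =
        conj (b i) * b j - (∑ k ∈ T, conj (if k * g i ∈ F then b i else 0) *
          (if k * g j ∈ F then b j else 0)) / F.card := by
      intro i j
      rw [term_eq F hF]
      push_cast
      rw [good_eq F n g T hT i j, mul_sub, mul_one, ← mul_div_assoc, Finset.mul_sum]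
      congr 2
      refine Finset.sum_congr rfl fun k _ => ?_
      by_cases h1 : k * g i ∈ F <;> by_cases h2 : k * g j ∈ F <;> simp [h1, h2]
    simp only [h1, Finset.sum_sub_distrib]
    have h2 : ∑ i, ∑ j, conj (b i) * b j = 0 := by
      simp only [← Finset.mul_sum, hb, mul_zero, Finset.sum_const_zero]
    rw [h2, zero_sub]
    congr 1
    simp only [← Finset.sum_div]
    have h3 : ∀ i : Fin n, ∑ j, ∑ k ∈ T, conj (if k * g i ∈ F then b i else 0) *
          (if k * g j ∈ F then b j else 0) = ∑ k ∈ T, conj (if k * g i ∈ F then b i else 0) *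
          ∑ j, (if k * g j ∈ F then b j else 0) := by
      intro i
      rw [Finset.sum_comm]
      simp only [Finset.mul_sum]
    simp only [h3]
    rw [Finset.sum_comm]
    rw [Finset.sum_div]
    refine Finset.sum_congr rfl fun k _ => ?_
    rw [← Finset.sum_mul]
    push_cast
    congr 1
    rw [Complex.normSq_eq_conj_mul_self, map_sum]
  rw [key]
  rw [Complex.neg_re, Complex.re_sum]
  simp only [Complex.ofReal_re]
  have : 0 ≤ ∑ k ∈ T, Complex.normSq (∑ j, (if k * g j ∈ F then b j else 0)) / (F.card : ℝ) :=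
    Finset.sum_nonneg fun k _ => div_nonneg (Complex.normSq_nonneg _) hc.le
  linarith

theorem main : S_FH := by
  intro G _ _ hF
  classical
  obtain ⟨e, he⟩ := exists_surjective_nat G
  choose F hne hF' using fun n : ℕ =>
    hF ((Finset.range (n + 1)).image e) ((1 / 2 : ℝ) ^ n) (by positivity)
  have hc : ∀ n, (0 : ℝ) < (F n).card := fun n => by exact_mod_cast (hne n).card_pos
  have hle : ∀ m n, m ≤ n → term (F n) (e m) ≤ (1 / 2 : ℝ) ^ n := by
    intro m n hmn
    have := hF' n (e m) (Finset.mem_image_of_mem _ (Finset.mem_range.2 (by omega)))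
    unfold term
    rw [div_le_iff₀ (hc n)]
    convert this
  have hsum : ∀ g, Summable fun n => term (F n) g := by
    intro g
    obtain ⟨m, rfl⟩ := he g
    refine Summable.of_norm_bounded_eventually_nat
      (summable_geometric_of_lt_one (by norm_num) (by norm_num : (1 / 2 : ℝ) < 1)) ?_
    filter_upwards [Filter.eventually_ge_atTop m] with n hn
    rw [Real.norm_of_nonneg (term_nonneg _ _)]
    exact hle m n hn
  refine ⟨fun g => ∑' n, term (F n) g, ?_, ?_⟩
  · constructor
    · intro g
      exact tsum_nonneg fun n => term_nonneg _ _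
    · simp [term_one]
    · intro g
      congr 1
      ext n
      rw [term_eq _ (hne n), term_eq _ (hne n), good_inv]
    · intro n g b hb
      have h1 : HasSum (fun m => ∑ i, ∑ j, conj (b i) * b j *
          ((term (F m) ((g i)⁻¹ * g j) : ℝ) : ℂ))
          (∑ i, ∑ j, conj (b i) * b j * ((∑' m, term (F m) ((g i)⁻¹ * g j) : ℝ) : ℂ)) := by
        refine hasSum_sum fun i _ => hasSum_sum fun j _ => ?_
        refine HasSum.mul_left _ ?_
        exact Complex.hasSum_ofReal.2 (hsum _).hasSum
      have h2 := Complex.hasSum_re h1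
      exact h2.nonpos fun m => neg_term (F m) (hne m) n g b hb
  · intro s
    set N : ℕ := ⌈s⌉₊ + 1 with hN
    refine Set.Finite.subset (s := ⋃ n ∈ Finset.range N,
      (((F n ×ˢ F n).image fun p => p.1⁻¹ * p.2 : Finset G) : Set G)) ?_ ?_
    · exact Set.Finite.biUnion (Finset.finite_toSet _) fun n _ => Finset.finite_toSet _
    · intro g hg
      simp only [Set.mem_ofPred_eq] at hg
      have hex : ∃ n ∈ Finset.range N, ∃ h ∈ F n, h * g ∈ F n := by
        by_contra hcon
        push Not at hcon
        have h1 : ∀ n ∈ Finset.range N, term (F n) g = 1 := by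
          intro n hn
          unfold term
          rw [Finset.filter_true_of_mem (hcon n hn)]
          exact div_self (hc n).ne'
        have h2 : ∑ n ∈ Finset.range N, term (F n) g ≤ ∑' n, term (F n) g :=
          (hsum g).sum_le_tsum _ fun n _ => term_nonneg _ _
        rw [Finset.sum_congr rfl h1] at h2
        simp at h2
        have h3 : s < N := by
          rw [hN]; push_cast
          have := Nat.le_ceil s
          linarith
        linarith
      obtain ⟨n, hn, h, hh, hhg⟩ := hex
      simp only [Set.mem_iUnion]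
      refine ⟨n, hn, ?_⟩
      rw [Finset.mem_coe, Finset.mem_image]
      exact ⟨(h, h * g), Finset.mem_product.2 ⟨hh, hhg⟩, by simp⟩

end Pool.Agent.R499.HT.FH
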