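import Pool.Agent.R499.HT.Stm

set_option autoImplicit false

namespace Pool.Agent.R499.HT.FOL

open Pool.Agent.R499.HT

/-- sup norm -/
def nrm (x : Z4) : ℕ := Finset.univ.sup fun i => (x i).natAbs

lemma nrm_le (x : Z4) (n : ℕ) : nrm x ≤ n ↔ ∀ i, (x i).natAbs ≤ n := by
  simp [nrm, Finset.sup_le_iff]

/-- boxes -/
noncomputable def Box (n : ℕ) : Finset Z4 := Fintype.piFinset fun _ => Finset.Icc (-(n : ℤ)) n

lemma mem_Box (n : ℕ) (x : Z4) : x ∈ Box n ↔ nrm x ≤ n := by
  rw [nrm_le, Box, Fintype.mem_piFinset]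
  refine forall_congr' fun i => ?_
  rw [Finset.mem_Icc]
  omega

lemma card_Box (n : ℕ) : (Box n).card = (2 * n + 1) ^ 4 := by
  rw [Box, Fintype.card_piFinset]
  simp only [Int.card_Icc, Finset.prod_const, Finset.card_univ, Fintype.card_fin]
  congr 1
  omega

lemma nrm_add (x y : Z4) : nrm (x + y) ≤ nrm x + nrm y := by
  rw [nrm_le]
  intro i
  have h1 := (nrm_le x _).1 le_rfl i
  have h2 := (nrm_le y _).1 le_rfl i
  have h3 := Int.natAbs_add_le (x i) (y i)
  simp only [Pi.add_apply]
  omega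

open Classical in
/-- product sets -/
noncomputable def PF (A : Finset Z4) (B : Finset Z4) : Finset W :=
  (LR A ×ˢ B).image fun p => ⟨p.1, p.2⟩

lemma mem_PF (A B : Finset Z4) (w : W) : w ∈ PF A B ↔ w.f.support ⊆ A ∧ w.x ∈ B := by
  classical
  unfold PF
  rw [Finset.mem_image]
  constructor
  · rintro ⟨p, hp, rfl⟩
    rw [Finset.mem_product, mem_LR] at hp
    exact hp
  · intro h
    exact ⟨(w.f, w.x), by rw [Finset.mem_product, mem_LR]; exact h, rfl⟩

lemma card_PF (A B : Finset Z4) : (PF A B).card = 4 ^ A.card * B.card := by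
  classical
  unfold PF
  rw [Finset.card_image_of_injective, Finset.card_product, card_LR]
  intro p q h
  have h1 := congrArg W.f h
  have h2 := congrArg W.x h
  exact Prod.ext h1 h2

lemma supp_sh (x : Z4) (f : Lp) (b : Z4) (hb : b ∈ (sh x f).support) : -x + b ∈ f.support := by
  rw [Finsupp.mem_support_iff] at hb ⊢
  rwa [sh_apply] at hb

theorem main : S_FOL := by
  intro K ε hε
  classical
  set m : ℕ := K.sup (fun g => (g.f.support.sup nrm) ⊔ nrm g.x) with hm
  have hm1 : ∀ g ∈ K, ∀ b ∈ g.f.support, nrm b ≤ m := by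
    intro g hg b hb
    have h1 : nrm b ≤ g.f.support.sup nrm := Finset.le_sup hb
    have h2 : (g.f.support.sup nrm) ⊔ nrm g.x ≤ m :=
      Finset.le_sup (f := fun g : W => (g.f.support.sup nrm) ⊔ nrm g.x) hg
    exact h1.trans (le_sup_left.trans h2)
  have hm2 : ∀ g ∈ K, nrm g.x ≤ m := by
    intro g hg
    have h2 : (g.f.support.sup nrm) ⊔ nrm g.x ≤ m :=
      Finset.le_sup (f := fun g : W => (g.f.support.sup nrm) ⊔ nrm g.x) hg
    exact le_sup_right.trans h2
  set n : ℕ := m + ⌈4 * (m : ℝ) / ε⌉₊ with hn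
  have hnm : m ≤ n := by omega
  refine ⟨PF (Box n) (Box n), ?_, ?_⟩
  · refine ⟨1, ?_⟩
    rw [mem_PF]
    constructor
    · simp
    · rw [mem_Box]
      simp [nrm]
  · intro g hg
    have hsub : ((PF (Box n) (Box n)).filter fun h => h * g ∉ PF (Box n) (Box n)) ⊆
        PF (Box n) (Box n \ Box (n - m)) := by
      intro h hh
      rw [Finset.mem_filter] at hh
      obtain ⟨h1, h2⟩ := hh
      rw [mem_PF] at h1
      rw [mem_PF, Finset.mem_sdiff]
      refine ⟨h1.1, h1.2, ?_⟩
      intro h3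
      apply h2
      rw [mem_Box] at h3
      rw [mem_PF]
      constructor
      · intro b hb
        rw [mem_Box]
        rw [W.mul_f] at hb
        have hb' := Finsupp.support_add hb
        rw [Finset.mem_union] at hb'
        rcases hb' with hb' | hb'
        · exact (mem_Box _ _).1 (h1.1 hb')
        · have h4 := supp_sh _ _ _ hb'
          have h5 := hm1 g hg _ h4
          have h6 := nrm_add h.x (-h.x + b)
          rw [add_neg_cancel_left] at h6
          omega
      · rw [W.mul_x, mem_Box]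
        have h4 := nrm_add h.x g.x
        have h5 := hm2 g hg
        omega
    have hcard : (((PF (Box n) (Box n)).filter fun h => h * g ∉ PF (Box n) (Box n)).card : ℝ) ≤
        4 ^ (Box n).card * ((2 * (n : ℝ) + 1) ^ 4 - (2 * ((n : ℝ) - m) + 1) ^ 4) := by
      have h1 := Finset.card_le_card hsub
      rw [card_PF] at h1
      have h2 : (Box n \ Box (n - m)).card + (Box (n - m)).card = (Box n).card := by
        apply Finset.card_sdiff_add_card_eq_card
        intro x hx
        rw [mem_Box] at hx ⊢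
        omega
      rw [card_Box (n - m), card_Box n] at h2
      have h3 : ((Box n \ Box (n - m)).card : ℝ) =
          (2 * (n : ℝ) + 1) ^ 4 - (2 * ((n : ℝ) - m) + 1) ^ 4 := by
        have h4 : ((Box n \ Box (n - m)).card : ℝ) + (2 * ((n - m : ℕ) : ℝ) + 1) ^ 4 =
            (2 * (n : ℝ) + 1) ^ 4 := by exact_mod_cast h2
        rw [Nat.cast_sub hnm] at h4
        linarith
      calc (((PF (Box n) (Box n)).filter fun h => h * g ∉ PF (Box n) (Box n)).card : ℝ)
          ≤ ((4 ^ (Box n).card * (Box n \ Box (n - m)).card : ℕ) : ℝ) := by exact_mod_cast h1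
        _ = _ := by push_cast; rw [h3]
    have hgoal : (((PF (Box n) (Box n)).filter fun h => h * g ∉ PF (Box n) (Box n)).card : ℝ) ≤
        ε * ((PF (Box n) (Box n)).card : ℝ) := by
      refine hcard.trans ?_
      rw [card_PF, card_Box n]
      push_cast
      have hN : (0 : ℝ) < 2 * n + 1 := by positivity
      have hb : 1 + (4 : ℕ) * (-(2 * (m : ℝ) / (2 * n + 1))) ≤
          (1 + (-(2 * (m : ℝ) / (2 * n + 1)))) ^ 4 := by
        apply one_add_mul_le_pow
        have : 2 * (m : ℝ) / (2 * n + 1) ≤ 1 := by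
          rw [div_le_one hN]
          have : (m : ℝ) ≤ n := by exact_mod_cast hnm
          linarith
        linarith
      have hq : (2 * ((n : ℝ) - m) + 1) = (2 * n + 1) * (1 + (-(2 * (m : ℝ) / (2 * n + 1)))) := by
        field_simp
        ring
      have hε2 : 8 * (m : ℝ) / (2 * n + 1) ≤ ε := by
        rw [div_le_iff₀ hN]
        have h1 : 4 * (m : ℝ) / ε ≤ n := by
          rw [hn]; push_cast
          have := Nat.le_ceil (4 * (m : ℝ) / ε)
          have h0 : (0 : ℝ) ≤ m := by positivity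
          linarith
        rw [div_le_iff₀ hε] at h1
        nlinarith
      have h4 : (2 * (n : ℝ) + 1) ^ 4 - (2 * ((n : ℝ) - m) + 1) ^ 4 ≤ ε * (2 * n + 1) ^ 4 := by
        rw [hq, mul_pow]
        have h5 : 1 - ε ≤ (1 + (-(2 * (m : ℝ) / (2 * n + 1)))) ^ 4 := by
          refine le_trans ?_ hb
          have : (4 : ℕ) * (-(2 * (m : ℝ) / (2 * n + 1))) = -(8 * (m : ℝ) / (2 * n + 1)) := by
            push_cast; ring
          rw [this]
          linarith
        have h6 : (0 : ℝ) < (2 * n + 1) ^ 4 := by positivity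
        nlinarith
      have h7 : (0 : ℝ) ≤ 4 ^ ((2 * n + 1) ^ 4) := by positivity
      calc (4 : ℝ) ^ ((2 * n + 1) ^ 4) * ((2 * (n : ℝ) + 1) ^ 4 - (2 * ((n : ℝ) - m) + 1) ^ 4)
          ≤ 4 ^ ((2 * n + 1) ^ 4) * (ε * (2 * n + 1) ^ 4) := mul_le_mul_of_nonneg_left h4 h7
        _ = ε * (4 ^ ((2 * n + 1) ^ 4) * (2 * n + 1) ^ 4) := by ring
    convert hgoal

end Pool.Agent.R499.HT.FOL
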