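import Pool.Agent.R499.HT.Stm

/-!
HT-PERF (MP_94b6b1_an): the lamp groups have a perfect function with values `±1`.
-/

set_option autoImplicit false

namespace Pool.Agent.R499.HT.PERF

open Pool.Agent.R499.HT

/-- the perfect sequence `(1, 1, 1, -1)` on `ZMod 4` -/
noncomputable def e0 (a : ZMod 4) : ℝ := if a = 3 then -1 else 1

lemma e0_sgn (a : ZMod 4) : e0 a = 1 ∨ e0 a = -1 := by
  unfold e0
  split_ifs
  · right; rfl
  · left; rfl

lemma e0_cor (u : ZMod 4) (hu : u ≠ 0) : ∑ a : ZMod 4, e0 a * e0 (a + u) = 0 := by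
  have key : ∀ u : ZMod 4, u ≠ 0 →
      ∑ a : ZMod 4, (if a = 3 then (-1 : ℤ) else 1) * (if a + u = 3 then (-1 : ℤ) else 1) = 0 := by
    decide
  have h := key u hu
  have h2 : ((∑ a : ZMod 4, (if a = 3 then (-1 : ℤ) else 1) * (if a + u = 3 then (-1 : ℤ) else 1)
    : ℤ) : ℝ) = 0 := by rw [h]; simp
  rw [← h2]
  push_cast
  apply Finset.sum_congr rfl
  intro a _
  unfold e0
  rfl

lemma sum_LR (R : Finset Z4) (h : Z4 → ZMod 4 → ℝ) :
    ∑ f ∈ LR R, ∏ y ∈ R, h y (f y) = ∏ y ∈ R, ∑ a : ZMod 4, h y a := by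
  classical
  rw [Finset.prod_sum]
  unfold LR Finset.finsupp
  rw [Finset.sum_map]
  apply Finset.sum_bij (fun (p : (a : Z4) → a ∈ R → ZMod 4) _ => p)
  · intro p hp
    simp
  · intro p _ q _ h; exact h
  · intro p hp
    exact ⟨p, by simp, rfl⟩
  · intro p hp
    rw [← Finset.prod_attach]
    apply Finset.prod_congr rfl
    intro x _
    simp [Finsupp.indicator_apply]

lemma sh_zero (f : Lp) : sh 0 f = f := by
  ext b
  simp

lemma mem_KW (R : Finset Z4) (w : W) : w ∈ KW R ↔ w.f ∈ LR R ∧ w.x = 0 := by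
  unfold KW
  rw [Finset.mem_map]
  constructor
  · rintro ⟨f, hf, rfl⟩
    exact ⟨hf, rfl⟩
  · rintro ⟨h1, h2⟩
    refine ⟨w.f, h1, ?_⟩
    apply W.ext
    · rfl
    · exact h2.symm

theorem perf : S_PERF := by
  intro R
  classical
  refine ⟨fun w => ∏ y ∈ R, e0 (w.f y), ?_, ?_, ?_, ?_, ?_⟩
  · rw [mem_KW, mem_LR]
    simp
  · intro a ha b hb
    rw [mem_KW, mem_LR] at ha hb ⊢
    refine ⟨?_, ?_⟩
    · rw [W.mul_f, ha.2, sh_zero]
      exact Finsupp.support_add.trans (Finset.union_subset ha.1 hb.1)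
    · rw [W.mul_x, ha.2, hb.2, add_zero]
  · intro a ha
    rw [mem_KW, mem_LR] at ha ⊢
    refine ⟨?_, ?_⟩
    · rw [W.inv_f, ha.2, neg_zero, sh_zero, Finsupp.support_neg]
      exact ha.1
    · rw [W.inv_x, ha.2, neg_zero]
  · intro a _
    show (∏ y ∈ R, e0 (a.f y)) = 1 ∨ (∏ y ∈ R, e0 (a.f y)) = -1
    refine Finset.prod_induction (fun y => e0 (a.f y)) (fun t => t = 1 ∨ t = -1) ?_ ?_ ?_
    · rintro s t (rfl | rfl) (rfl | rfl) <;> norm_num
    · left; rfl
    · intro y _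
      exact e0_sgn _
  · intro u hu hu1
    rw [mem_KW, mem_LR] at hu
    have hg : ∃ y, u.f y ≠ 0 := by
      by_contra hcon
      push Not at hcon
      apply hu1
      apply W.ext
      · ext y
        simp [hcon y]
      · exact hu.2
    obtain ⟨y0, hy0⟩ := hg
    have hy0R : y0 ∈ R := hu.1 (Finsupp.mem_support_iff.mpr hy0)
    unfold KW
    rw [Finset.sum_map]
    have hstep : ∀ f : Lp, (∏ y ∈ R, e0 ((⟨f, 0⟩ : W).f y)) *
        (∏ y ∈ R, e0 (((⟨f, 0⟩ : W) * u).f y)) =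
        ∏ y ∈ R, (fun (y : Z4) (a : ZMod 4) => e0 a * e0 (a + u.f y)) y (f y) := by
      intro f
      rw [← Finset.prod_mul_distrib]
      apply Finset.prod_congr rfl
      intro y _
      rw [W.mul_f]
      show e0 (f y) * e0 ((f + sh 0 u.f) y) = _
      rw [sh_zero]
      rfl
    have hs : ∑ f ∈ LR R, (∏ y ∈ R, e0 ((⟨f, 0⟩ : W).f y)) *
        (∏ y ∈ R, e0 (((⟨f, 0⟩ : W) * u).f y)) = 0 := by
      rw [Finset.sum_congr rfl (fun f _ => hstep f)]
      have h3 := sum_LR R (fun (y : Z4) (a : ZMod 4) => e0 a * e0 (a + u.f y))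
      exact h3.trans (Finset.prod_eq_zero hy0R (e0_cor _ hy0))
    exact hs

end Pool.Agent.R499.HT.PERF
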