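import Pool.Agent.R499.HT.Defs

/-!
Statements of the pieces of the project HT (MP_94b6b1_an); proofs on paper in NOTES.md.
-/

set_option autoImplicit false

namespace Pool.Agent.R499.HT

open scoped ComplexConjugate

/-- HT-UP -/
def S_UP : Prop := ∀ (G : Type) [Group G] (d : G → ℝ), ND d → ∀ μ : MonoidAlgebra ℝ G,
  (∀ g, μ.coeff g⁻¹ = μ.coeff g) → pair (fun _ => (1 : ℝ)) μ = 1 →
  ∀ k : ℕ, pair d (μ ^ (2 ^ k)) ≤ 2 ^ k * pair d μ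

/-- HT-BS (Banach-Steinhaus) -/
def S_BS : Prop := ∀ (G : Type) [Group G] (d : G → ℝ) (t : ℝ) (M : Cr G →L[ℂ] Cr G),
  (∀ g : G, M ⟨lam g, lam_mem g⟩ = ((Real.exp (-(t * d g)) : ℝ) : ℂ) • ⟨lam g, lam_mem g⟩) →
  (∀ x : Cr G, InCF (M x : L2 G →L[ℂ] L2 G)) →
  ∃ C : ℝ, 0 < C ∧ ∀ (T S : Finset G) (c : G → ℂ), S ⊆ T →
    ‖∑ g ∈ S, (((Real.exp (-(t * d g)) : ℝ) : ℂ) * c g) • lam g‖ ≤ C * ‖∑ g ∈ T, c g • lam g‖

/-- HT-NLOW -/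
def S_NLOW : Prop := ∀ (G : Type) [Group G] (K : Finset G), (1 : G) ∈ K →
  (∀ a ∈ K, ∀ b ∈ K, a * b ∈ K) → (∀ a ∈ K, a⁻¹ ∈ K) →
  ∀ (S : Finset G), S ⊆ K → ∀ (c : G → ℝ), (∀ g, 0 ≤ c g) → ∀ x : G,
    ∑ v ∈ S, c v ≤ ‖∑ v ∈ S, (c v : ℂ) • lam (v * x)‖

/-- HT-BENT -/
def S_BENT : Prop := ∀ (G : Type) [Group G] (K : Finset G) (ε : G → ℝ), PerfectOn K ε →
  ∀ x : G, ‖∑ v ∈ K, (ε v : ℂ) • lam (v * x)‖ ≤ Real.sqrt K.card

/-- HT-HLOW: the heat property forces `d` to be large on average on cosets of finite subgroups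
with a perfect function -/
def S_HLOW : Prop := ∀ (G : Type) [Group G] (d : G → ℝ), HeatFor d →
  ∀ t : ℝ, 0 < t → ∃ C : ℝ, ∀ (K : Finset G) (ε : G → ℝ), PerfectOn K ε → ∀ x : G,
    (Real.log K.card / 2 - C) / t ≤ (∑ v ∈ K, d (v * x)) / K.card

/-- HT-PERF -/
def S_PERF : Prop := ∀ R : Finset Z4, ∃ ε : W → ℝ, PerfectOn (KW R) ε

/-- HT-REC -/
def S_REC : Prop := ∀ (d : W → ℝ) (n : ℕ) (R : Finset Z4) (x : Z4),
  pair d (mm R * U x * nu ^ n) = (TT^[n] (AV d)) R x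

/-- HT-NU -/
def S_NU : Prop := (∀ g, nu.coeff g⁻¹ = nu.coeff g) ∧ pair (fun _ => (1 : ℝ)) nu = 1

/-- transition probabilities of the walk with steps `(±1, ±1, ±1, ±1)` -/
noncomputable def q : ℕ → Z4 → ℝ
  | 0 => fun z => if z = 0 then 1 else 0
  | k + 1 => fun z => (∑ s : Fin 4 → Bool, q k (z - st s)) / 16

/-- HT-Q -/
def S_Q : Prop := ∀ k : ℕ, q (2 * k) 0 = ((Nat.centralBinom k : ℝ) / 4 ^ k) ^ 4

/-- HT-BIN -/
def S_BIN : Prop := ∀ n : ℕ,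
  ∑ k ∈ Finset.range n, ((Nat.centralBinom (k + 1) : ℝ) / 4 ^ (k + 1)) ^ 4 ≤ 1 / 4

/-- HT-RNG: the expected number of sites visited grows linearly (uses S_Q, S_BIN) -/
def S_RNG : Prop := ∀ n : ℕ, 3 / 4 * (n : ℝ) ≤ (TT^[n] (fun R _ => (R.card : ℝ))) ∅ 0

/-- HT-FOL -/
def S_FOL : Prop := Folner W

/-- HT-FH: amenable countable groups have the Haagerup property -/
def S_FH : Prop := ∀ (G : Type) [Group G] [Countable G], Folner G → Haagerup G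

/-- final statement -/
def S_MAIN : Prop := ∃ (G : Type) (_ : Group G), Countable G ∧ Infinite G ∧ Folner G ∧
  Haagerup G ∧ ¬ Heat G

end Pool.Agent.R499.HT
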